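import Pool.Agent.U670.ZS.Defs

/-!
Weighted `ℓ^p`-homology and `ℓ^p`-cohomology of the coverings of a finite aspherical complex, with
coefficients in a unitary representation.

The conventions are those of `Pool.Agent.U670.ZS.Defs`: `X : FinRes G` is the cellular chain complex
of the universal cover of a finite aspherical complex `M` with fundamental group `G`, and a locally
finite `k`-chain `f` of the covering `M_C` with fundamental group `C ≤ G`, with coefficients in the
flat bundle of the unitary representation `π` of `C`, is a tuple of functions `f j : G → V`, one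
for each `k`-cell of `M`, with `f j (c x) = π(c) (f j x)` for `c ∈ C` (`IsLf`). The cells of `M_C`
are the pairs of a cell of `M` and a coset `C x`. By the inner product, chains are also cochains.
-/

set_option autoImplicit false

namespace Pool.Agent.U670.ZP

open Pool.Agent.H919R4.ZS (FinRes)
open Pool.Agent.TH98.ZT (URep bd)
open Pool.Agent.U670.ZS

variable {G : Type} [Group G] {C : Subgroup G}

/-- A weight `w` on the set of the cosets `C x` is slowly varying at scale `(S, ε)`: it is positive
and `|w (C x s) - w (C x)| ≤ ε w (C x)` for all `x ∈ G` and `s ∈ S`. -/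
def SlowWeight (S : Finset G) (ε : ℝ) (w : Cos C → ℝ) : Prop :=
  (∀ q, 0 < w q) ∧ ∀ q, ∀ s ∈ S, |w (mulR q s) - w q| ≤ ε * w q

section

variable {V : Type} [NormedAddCommGroup V] [InnerProductSpace ℂ V]

/-- The `w`-weighted `ℓ^p`-norm of `f` is at most `R`: for each finite set `A` of cosets the sum of
`(w (C x) |f j (x)|)^p` over the cells of `M_C` with `C x ∈ A` is at most `R^p`. -/
def NormLe (p : ℝ) (w : Cos C → ℝ) {m : ℕ} (f : Fin m → G → V) (R : ℝ) : Prop :=
  0 ≤ R ∧ ∀ A : Finset (Cos C), ∑ j, ∑ q ∈ A, (w q * ‖f j (rep q)‖) ^ p ≤ R ^ p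

/-- The `w`-weighted `ℓ^p`-homology of `M_C` in degree `k` with coefficients in `π` is zero, with
constant `K`: each `ℓ^p`-cycle `f` of norm at most `R` is the boundary of an `ℓ^p`-chain of norm
at most `K R`. -/
def HomologyZero (X : FinRes G) (k : ℕ) (π : URep C V) (p : ℝ) (w : Cos C → ℝ) (K : ℝ) : Prop :=
  ∀ (f : Fin (X.n k) → G → V) (R : ℝ), IsLf π f → IsCyc X k f → NormLe p w f R →
    ∃ g : Fin (X.n (k + 1)) → G → V, IsLf π g ∧ NormLe p w g (K * R) ∧ bd (X.d k) g = f

/-- The `w`-weighted `ℓ^p`-cohomology of `M_C` in degree `k` with coefficients in `π` is zero, with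
constant `K`: each `ℓ^p`-cocycle `f` of norm at most `R` is zero if `k = 0`, and the coboundary of
an `ℓ^p`-cochain of norm at most `K R` if `k > 0`. -/
def CohomologyZero (X : FinRes G) : ℕ → URep C V → ℝ → (Cos C → ℝ) → ℝ → Prop
  | 0, π, p, w, _ => ∀ (f : Fin (X.n 0) → G → V) (R : ℝ), IsLf π f → IsCoc X 0 f →
      NormLe p w f R → f = 0
  | k + 1, π, p, w, K => ∀ (f : Fin (X.n (k + 1)) → G → V) (R : ℝ), IsLf π f →
      IsCoc X (k + 1) f → NormLe p w f R →
      ∃ g : Fin (X.n k) → G → V, IsLf π g ∧ NormLe p w g (K * R) ∧ cbd (X.d k) g = f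

end

end Pool.Agent.U670.ZP
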