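import Pool.Agent.U670.ZP.Inv
import Pool.Agent.U670.ZP.Stmt

set_option autoImplicit false
set_option linter.unusedSectionVars false

open scoped Matrix ENNReal Pointwise Topology
open Filter

namespace Pool.Agent.U670.ZP

open Pool.Agent.U670.ZS
open Pool.Agent.H919R4.ZS (FinRes RedC toRed)
open Pool.Agent.TH98.ZT (URep bd bd_add bd_zero Tempered tempered_of_amenable)
open Pool.Agent.H496R3.ZS (IsAmenable)

noncomputable section

variable {G : Type} [Group G] {C : Subgroup G} {a b c : ℕ}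
  {V : Type} [NormedAddCommGroup V] [InnerProductSpace ℂ V] {π : URep C V}

lemma normLe_iff {p : ℝ} {w : Cos C → ℝ} (hw : ∀ q, 0 < w q) {f : Fin a → G → V} {R : ℝ} :
    NormLe p w f R ↔ Le p C (wt w f) R := by
  have e : ∀ (j : Fin a) (q : Cos C), w q * ‖f j (rep q)‖ = ‖wt w f j (rep q)‖ := by
    intro j q
    rw [wt, cmk_rep, norm_smul, Complex.norm_real, Real.norm_of_nonneg (hw q).le]
  simp only [NormLe, Le, pm, e]

/-- the splitting of a chain -/
theorem split [CompleteSpace V] (D1 : Matrix (Fin a) (Fin b) (MonoidAlgebra ℤ G))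
    (D2 : Matrix (Fin a) (Fin c) (MonoidAlgebra ℤ G))
    (hE12 : ∀ (v : Fin b → G → V), bd D2 (bd (adjM D1) v) = 0)
    (hE21 : ∀ (v : Fin c → G → V), bd D1 (bd (adjM D2) v) = 0)
    {p : ℝ} {w : Cos C → ℝ} {S : Finset G} {ε κ h : ℝ}
    (hSL : SD (lapM D1 D2) ⊆ S) (hS1 : SD D1 ⊆ S) (hS2 : SD D2 ⊆ S) (hS1' : SD (adjM D1) ⊆ S)
    (hS2' : SD (adjM D2) ⊆ S)
    (hp : 1 ≤ p) (hw : SlowW w S ε) (hε : 0 ≤ ε)
    (hκ : 0 < κ) (hh : 0 ≤ h) (H : Bnd π (lapM D1 D2) κ p h)
    (h1 : h + κ * ε * absM (lapM D1 D2) < 1)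
    {f : Fin a → G → V} {M : ℝ} (hl : IsLf π f) (hf : Le p C (wt w f) M) :
    ∃ u : Fin a → G → V, IsLf π u ∧
      Le p C (wt w u) (κ * (M / (1 - (h + κ * ε * absM (lapM D1 D2))))) ∧
      (bd D1 f = 0 → bd (adjM D2) (bd D2 u) = f) ∧
      (bd D2 f = 0 → bd (adjM D1) (bd D1 u) = f) := by
  classical
  set L := lapM D1 D2 with hL
  obtain ⟨u, hul, hu, hub⟩ := inv_exists hp hw hε hSL hκ hh H h1 hl hf
  refine ⟨u, hul, hub, fun h0 => ?_, fun h0 => ?_⟩
  · -- the other summand vanishes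
    have v1 : IsLf π (bd D1 u) := hul.bd D1
    have v2 : IsLf π (bd (adjM D1) (bd D1 u)) := v1.bd _
    have w1 := Le.wt_bd hp hw hε hul hub D1 hS1
    have w2 := Le.wt_bd hp hw hε v1 w1 (adjM D1) hS1'
    have e1 : bd (adjM D1) (bd D1 u) + bd (adjM D2) (bd D2 u) = f := by
      rw [← bd_lapM]; exact hu
    have e2 : bd D1 (bd (adjM D1) (bd D1 u)) = 0 := by
      have := congrArg (bd D1) e1
      rw [bd_add, hE21, add_zero, h0] at this
      exact this
    have e3 : bd L (bd (adjM D1) (bd D1 u)) = 0 := by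
      rw [hL, bd_lapM, e2, hE12, bd_zero, bd_zero, add_zero]
    have e4 := inv_unique hp hw hε hSL hκ.le hh H h1 v2 w2 e3
    rw [e4, zero_add] at e1
    exact e1
  · have v1 : IsLf π (bd D2 u) := hul.bd D2
    have v2 : IsLf π (bd (adjM D2) (bd D2 u)) := v1.bd _
    have w1 := Le.wt_bd hp hw hε hul hub D2 hS2
    have w2 := Le.wt_bd hp hw hε v1 w1 (adjM D2) hS2'
    have e1 : bd (adjM D1) (bd D1 u) + bd (adjM D2) (bd D2 u) = f := by
      rw [← bd_lapM]; exact hu
    have e2 : bd D2 (bd (adjM D2) (bd D2 u)) = 0 := by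
      have := congrArg (bd D2) e1
      rw [bd_add, hE12, zero_add, h0] at this
      exact this
    have e3 : bd L (bd (adjM D2) (bd D2 u)) = 0 := by
      rw [hL, bd_lapM, e2, hE21, bd_zero, bd_zero, add_zero]
    have e4 := inv_unique hp hw hε hSL hκ.le hh H h1 v2 w2 e3
    rw [e4, add_zero] at e1
    exact e1

/-- **main theorem**, direct form -/
theorem exists_nbhd (X : FinRes G) (k : ℕ)
    (h : ∀ i ≤ k, Subsingleton (X.homology (toRed G) i)) :
    ∃ (S : Finset G) (ε K : ℝ), 0 < ε ∧ ε < 1 / 2 ∧ 0 < K ∧ ∀ {C : Subgroup G} {V : Type}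
      [NormedAddCommGroup V] [InnerProductSpace ℂ V] [CompleteSpace V] {π : URep C V},
      Tempered π → ∀ (p : ℝ) (w : Cos C → ℝ), |p - 2| < ε → SlowW w S ε →
        HomologyZero X k π p w K ∧ CohomologyZero X k π p w K := by
  classical
  obtain ⟨K, hK0, hK⟩ := gap_reg X k h
  set D1 := dm X k with hD1
  set D2 := adjM (X.d k) with hD2
  have hcbd : ∀ {W : Type} [AddCommGroup W] (f : Fin (X.n k) → G → W),
      bd D2 f = cbd (X.d k) f := fun f => bd_adjM _ f
  have hK' : ∀ (u : Fin (X.n k) → G → ℂ) (α : Fin (X.n k) → ℝ)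
      (β : Fin (np X k) → ℝ) (γ : Fin (X.n (k + 1)) → ℝ),
      (∀ j, HasSum (fun x => ‖u j x‖ ^ 2) (α j)) →
      (∀ l, HasSum (fun x => ‖bd D1 u l x‖ ^ 2) (β l)) →
      (∀ l, HasSum (fun x => ‖bd D2 u l x‖ ^ 2) (γ l)) →
      ∑ j, α j ≤ K * (∑ l, β l + ∑ l, γ l) := by
    intro u α β γ hα hβ hγ
    exact hK u α β γ hα hβ (fun l => by
      have := hγ l
      rwa [hcbd] at this)
  have hgap : ∀ {C : Subgroup G} {V : Type} [NormedAddCommGroup V] [InnerProductSpace ℂ V]
      {π : URep C V}, Tempered π → ∀ (A : Finset (Cos C)) (v : Fin (X.n k) → G → V),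
      IsFin π A v → N2 C v ≤ K * (N2 C (bd D1 v) + N2 C (bd D2 v)) :=
    fun hπ A v hv => transfer D1 D2 hK' hπ hv
  have hE12 : ∀ {W : Type} [AddCommGroup W] (v : Fin (np X k) → G → W),
      bd D2 (bd (adjM D1) v) = 0 := by
    intro W _ v
    rw [hcbd, bd_adjM, ← cbd_mul, hD1, d_mul_dm, cbd_zero_mat]
  have hE21 : ∀ {W : Type} [AddCommGroup W] (v : Fin (X.n (k + 1)) → G → W),
      bd D1 (bd (adjM D2) v) = 0 := by
    intro W _ v
    rw [hD2, adjM_adjM, ← bd_mul, hD1, d_mul_dm, bd_zero_mat]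
  obtain ⟨B1, hB10, hB1⟩ := N2_bd (adjM D1)
  obtain ⟨B2, hB20, hB2⟩ := N2_bd (adjM D2)
  set B : ℝ := B1 + B2 with hB
  have hB0 : 0 ≤ B := add_nonneg hB10 hB20
  set κ : ℝ := (2 * B + 1)⁻¹ with hκ
  have hκ0 : 0 < κ := by positivity
  have hκ1 : κ ≤ 1 := by
    rw [hκ]
    exact inv_le_one_of_one_le₀ (by linarith)
  -- the gap constant is enlarged
  set K1 : ℝ := K + 1 with hK1
  have hK10 : 0 ≤ K1 := by linarith
  set τ : ℝ := κ / (K1 + 1) with hτ
  have hτ0 : 0 < τ := by positivity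
  have hτ1 : τ < 1 := by
    rw [hτ, div_lt_one (by positivity)]
    linarith
  set ρ : ℝ := Real.sqrt (1 - τ) with hρ
  have hρ0 : 0 < ρ := Real.sqrt_pos.2 (by linarith)
  have hρ2 : ρ ^ 2 = 1 - τ := Real.sq_sqrt (by linarith)
  have hρ1 : ρ < 1 := by
    nlinarith [hρ2]
  set L := lapM D1 D2 with hL
  have hL0 := absM_nonneg L
  set h' : ℝ := 1 + κ * absM L with hh'
  have hh0 : 0 < h' := by positivity
  obtain ⟨ε0, hε00, hε01, hnear⟩ := exists_near ρ h' hρ0 hρ1 hh0
  have h1ρ : 0 < 1 - ρ := by linarith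
  set ε : ℝ := min ε0 ((1 - ρ) / (4 * (absM L + 1))) with hε
  have hεp : 0 < ε := lt_min hε00 (by positivity)
  have hε2 : κ * ε * absM L ≤ (1 - ρ) / 4 := by
    have e1 : ε ≤ (1 - ρ) / (4 * (absM L + 1)) := min_le_right _ _
    have e2 : ε * (4 * (absM L + 1)) ≤ 1 - ρ := (le_div_iff₀ (by positivity)).1 e1
    have e3 : κ * ε * absM L ≤ 1 * ε * absM L := by gcongr
    nlinarith
  set θ : ℝ := (1 + ρ) / 2 + κ * ε * absM L with hθ
  have hθ1 : θ < 1 := by linarith
  set S : Finset G := SD L ∪ (SD D1 ∪ SD D2 ∪ (SD (adjM D1) ∪ SD (adjM D2))) with hS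
  set c0 : ℝ := κ / (1 - θ) with hc0
  have hc00 : 0 < c0 := div_pos hκ0 (by linarith)
  set K' : ℝ := (1 + ε) * (absM D1 + absM D2) * c0 + 1 with hK'
  have ha1 := absM_nonneg D1
  have ha2 := absM_nonneg D2
  have hK'0 : 0 < K' := by positivity
  refine ⟨S, ε, K', hεp, (min_le_left _ _).trans_lt hε01, hK'0, ?_⟩
  intro C V _ _ _ π hπ p w hp hw
  have hp0 : |p - 2| < ε0 := hp.trans_le (min_le_left _ _)
  have hp1 : 1 ≤ p := by
    have := (abs_lt.1 hp0).1
    linarith
  have hcontr : ∀ (A : Finset (Cos C)) (v : Fin (X.n k) → G → V), IsFin π A v →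
      N2 C (sop L κ v) ≤ ρ ^ 2 * N2 C v := by
    intro A v hv
    rw [hρ2]
    refine l2_contr D1 D2 (K := K1) (B := B) hK10 hB0 ?_ ?_ ?_ A v hv
    · intro A v hv
      refine (hgap hπ A v hv).trans ?_
      refine mul_le_mul_of_nonneg_right (by linarith) ?_
      exact add_nonneg (N2_nonneg _) (N2_nonneg _)
    · intro A v hv
      refine (hB1 π A v hv).trans ?_
      exact mul_le_mul_of_nonneg_right (by linarith) (N2_nonneg _)
    · intro A v hv
      refine (hB2 π A v hv).trans ?_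
      exact mul_le_mul_of_nonneg_right (by linarith) (N2_nonneg _)
  have H : Bnd π L κ p ((1 + ρ) / 2) :=
    hnear p hp0 L κ (bnd_two hρ0.le hcontr) fun r hr => bnd_all L hκ0.le hr
  have hbound : ∀ {M d : ℝ}, 0 ≤ M → 0 ≤ d → d ≤ absM D1 + absM D2 →
      (1 + ε) * (d * (κ * (M / (1 - θ)))) ≤ K' * M := by
    intro M d hM hd hd'
    have e1 : (1 + ε) * (d * (κ * (M / (1 - θ)))) = ((1 + ε) * d * c0) * M := by
      rw [hc0]; ring
    rw [e1]
    refine mul_le_mul_of_nonneg_right ?_ hM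
    have : (1 + ε) * d * c0 ≤ (1 + ε) * (absM D1 + absM D2) * c0 := by gcongr
    linarith
  have hSL : SD L ⊆ S := Finset.subset_union_left
  have hS1 : SD D1 ⊆ S :=
    (Finset.subset_union_left.trans Finset.subset_union_left).trans Finset.subset_union_right
  have hS2 : SD D2 ⊆ S :=
    (Finset.subset_union_right.trans Finset.subset_union_left).trans Finset.subset_union_right
  have hS1' : SD (adjM D1) ⊆ S :=
    (Finset.subset_union_left.trans Finset.subset_union_right).trans Finset.subset_union_right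
  have hS2' : SD (adjM D2) ⊆ S :=
    (Finset.subset_union_right.trans Finset.subset_union_right).trans Finset.subset_union_right
  refine ⟨?_, ?_⟩
  · intro f R hf hcyc hR
    rw [normLe_iff hw.1] at hR
    obtain ⟨u, hul, hub, hu1, -⟩ := split D1 D2 (fun v => hE12 v) (fun v => hE21 v) (S := S)
      hSL hS1 hS2 hS1' hS2' hp1 hw hεp.le hκ0 (by positivity) H hθ1 hf hR
    refine ⟨bd D2 u, hul.bd D2, ?_, ?_⟩
    · rw [normLe_iff hw.1]
      have w1 := Le.wt_bd hp1 hw hεp.le hul hub D2 hS2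
      exact w1.mono hp1 (hbound hR.1 ha2 (by linarith))
    · have := hu1 ((isCyc_iff X k f).1 hcyc)
      rw [hD2, adjM_adjM] at this
      exact this
  · have hcoh : ∀ (f : Fin (X.n k) → G → V) (R : ℝ), IsLf π f → IsCoc X k f → NormLe p w f R →
        ∃ g : Fin (np X k) → G → V, IsLf π g ∧ NormLe p w g (K' * R) ∧ cbd D1 g = f := by
      intro f R hf hcoc hR
      rw [normLe_iff hw.1] at hR
      obtain ⟨u, hul, hub, -, hu2⟩ := split D1 D2 (fun v => hE12 v) (fun v => hE21 v) (S := S)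
        hSL hS1 hS2 hS1' hS2' hp1 hw hεp.le hκ0 (by positivity) H hθ1 hf hR
      refine ⟨bd D1 u, hul.bd D1, ?_, ?_⟩
      · rw [normLe_iff hw.1]
        have w1 := Le.wt_bd hp1 hw hεp.le hul hub D1 hS1
        exact w1.mono hp1 (hbound hR.1 ha1 (by linarith))
      · have h2 : bd D2 f = 0 := by
          rw [hcbd]
          exact hcoc
        have := hu2 h2
        rw [bd_adjM] at this
        exact this
    cases k with
    | zero =>
      intro f R hf hcoc hR
      obtain ⟨g, -, -, hg⟩ := hcoh f R hf hcoc hR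
      rw [← hg]
      funext j x
      exact Finset.sum_eq_zero fun l _ => l.elim0
    | succ k =>
      intro f R hf hcoc hR
      exact hcoh f R hf hcoc hR

/-- **main theorem** -/
theorem main (X : FinRes G) (k : ℕ)
    (h : ∀ (S : Finset G) (ε K : ℝ), 0 < ε → ∃ (C : Subgroup G) (V : Type)
      (_ : NormedAddCommGroup V) (_ : InnerProductSpace ℂ V) (_ : CompleteSpace V)
      (π : URep C V) (p : ℝ) (w : Cos C → ℝ), (IsAmenable C ∨ Tempered π) ∧ |p - 2| < ε ∧
        SlowWeight S ε w ∧ ¬ (HomologyZero X k π p w K ∧ CohomologyZero X k π p w K)) :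
    ∃ i ≤ k, Nontrivial (X.homology (toRed G) i) := by
  by_contra hcon
  push Not at hcon
  have hs : ∀ i ≤ k, Subsingleton (X.homology (toRed G) i) := fun i hi =>
    not_nontrivial_iff_subsingleton.1 (by simpa using hcon i hi)
  obtain ⟨S, ε, K, hε, -, -, hno⟩ := exists_nbhd X k hs
  obtain ⟨C, V, _, _, _, π, p, w, hπ, hp, hw, hf⟩ := h S ε K hε
  have hT : Tempered π := by
    rcases hπ with hC | hT
    · exact tempered_of_amenable hC π
    · exact hT
  exact hf (hno hT p w hp hw)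

end

end Pool.Agent.U670.ZP
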