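import Pool.Agent.U670.ZP.L2
import Pool.Agent.U670.ZP.RT

set_option autoImplicit false
set_option linter.unusedSectionVars false

open scoped Matrix ENNReal Pointwise

namespace Pool.Agent.U670.ZP

open Pool.Agent.U670.ZS
open Pool.Agent.TH98.ZT (URep bd bd_add bd_zero)

noncomputable section

variable {G : Type} [Group G] {C : Subgroup G} {a b c : ℕ}
  {V : Type} [NormedAddCommGroup V] [InnerProductSpace ℂ V] {π : URep C V}

lemma sop_zero (L : Matrix (Fin a) (Fin a) (MonoidAlgebra ℤ G)) (κ : ℝ) :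
    sop L κ (0 : Fin a → G → V) = 0 := by
  funext j x
  simp [sop, bd_zero]

lemma sop_add (L : Matrix (Fin a) (Fin a) (MonoidAlgebra ℤ G)) (κ : ℝ) (f g : Fin a → G → V) :
    sop L κ (f + g) = sop L κ f + sop L κ g := by
  funext j x
  simp only [sop, bd_add, Pi.sub_apply, Pi.add_apply, smul_add]
  abel

lemma sop_smul (L : Matrix (Fin a) (Fin a) (MonoidAlgebra ℤ G)) (κ : ℝ) (z : ℂ)
    (f : Fin a → G → V) :
    sop L κ (fun j x => z • f j x) = fun j x => z • sop L κ f j x := by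
  funext j x
  simp only [sop, bd_smul, Pi.sub_apply, smul_sub]
  rw [smul_comm]

lemma sop_sum (L : Matrix (Fin a) (Fin a) (MonoidAlgebra ℤ G)) (κ : ℝ) {ι : Type} (s : Finset ι)
    (f : ι → Fin a → G → V) :
    sop L κ (∑ i ∈ s, f i) = ∑ i ∈ s, sop L κ (f i) := by
  classical
  induction s using Finset.induction_on with
  | empty => simp [sop_zero]
  | insert i s hi ih => rw [Finset.sum_insert hi, Finset.sum_insert hi, sop_add, ih]

/-- the norm of `1 - κ L` on all `ℓ^r` -/
lemma Le.sop {r : ℝ} (hr : 1 ≤ r) {f : Fin a → G → V} {M : ℝ} (hf : Le r C f M) (hl : IsLf π f)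
    (L : Matrix (Fin a) (Fin a) (MonoidAlgebra ℤ G)) {κ : ℝ} (hκ : 0 ≤ κ) :
    Le r C (sop L κ f) ((1 + κ * absM L) * M) := by
  have h1 := (hf.bd hr hl L)
  have h2 : Le r C (fun j x => -(((κ : ℝ) : ℂ) • TH98.ZT.bd L f j x)) (κ * (absM L * M)) := by
    refine Le.smul' hr h1 hκ fun j x => ?_
    rw [norm_neg, norm_smul, Complex.norm_real, Real.norm_of_nonneg hκ]
  have h3 := hf.add hr h2
  have e : f + (fun j x => -(((κ : ℝ) : ℂ) • TH98.ZT.bd L f j x)) = ZP.sop L κ f := by
    funext j x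
    simp only [ZP.sop, Pi.add_apply, Pi.sub_apply]
    rw [sub_eq_add_neg]
  rw [e] at h3
  refine h3.mono hr (le_of_eq ?_)
  ring

open Classical in
/-- the normalised part of `f` at one cell of the covering -/
def part (f : Fin a → G → V) (n : Fin a × Cos C) : Fin a → G → V :=
  fun j x => if j = n.1 ∧ cmk C x = n.2 then ((‖f j x‖⁻¹ : ℝ) : ℂ) • f j x else 0

/-- a combination of parts -/
def comb (f : Fin a → G → V) (A : Finset (Cos C)) (z : Fin a × Cos C → ℂ) : Fin a → G → V :=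
  ∑ n ∈ (Finset.univ : Finset (Fin a)) ×ˢ A, fun j x => z n • part f n j x

open Classical in
lemma comb_apply (f : Fin a → G → V) (A : Finset (Cos C)) (z : Fin a × Cos C → ℂ) (j : Fin a)
    (x : G) : comb f A z j x =
      if cmk C x ∈ A then z (j, cmk C x) • (((‖f j x‖⁻¹ : ℝ) : ℂ) • f j x) else 0 := by
  rw [comb, Finset.sum_apply, Finset.sum_apply]
  by_cases h : cmk C x ∈ A
  · rw [if_pos h, Finset.sum_eq_single (j, cmk C x)]
    · simp [part]
    · rintro ⟨j', q⟩ _ hne
      have : ¬ (j = j' ∧ cmk C x = q) := by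
        rintro ⟨rfl, rfl⟩
        exact hne rfl
      simp only [part, if_neg this, smul_zero]
    · intro h'
      exact absurd (Finset.mem_product.2 ⟨Finset.mem_univ _, h⟩) h'
  · rw [if_neg h]
    refine Finset.sum_eq_zero fun n hn => ?_
    have : ¬ (j = n.1 ∧ cmk C x = n.2) := by
      rintro ⟨-, h'⟩
      rw [h'] at h
      exact h (Finset.mem_product.1 hn).2
    simp only [part, if_neg this, smul_zero]

lemma isFin_comb {f : Fin a → G → V} (hf : IsLf π f) (A : Finset (Cos C))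
    (z : Fin a × Cos C → ℂ) : IsFin π A (comb f A z) := by
  classical
  refine ⟨fun j c x => ?_, fun j x hx => ?_⟩
  · rw [comb_apply, comb_apply, cmk_mul]
    split_ifs
    · rw [hf, app_norm]
      change _ = π.hom c _
      rw [map_smul, map_smul]
      rfl
    · exact (app_zero π c).symm
  · by_contra h
    apply hx
    rw [comb_apply, if_neg h]

lemma norm_comb_le (f : Fin a → G → V) (A : Finset (Cos C)) (z : Fin a × Cos C → ℂ) (j : Fin a)
    (q : Cos C) : ‖comb f A z j (rep q)‖ ≤ ‖z (j, q)‖ := by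
  classical
  rw [comb_apply, cmk_rep]
  split_ifs
  · rw [norm_smul, norm_smul, Complex.norm_real, norm_inv, norm_norm]
    refine mul_le_of_le_one_right (norm_nonneg _) ?_
    exact inv_mul_le_one
  · rw [norm_zero]
    exact norm_nonneg _

lemma pm_comb_le {r : ℝ} (hr : 1 ≤ r) (f : Fin a → G → V) (A A' : Finset (Cos C))
    (z : Fin a × Cos C → ℂ) : pm r (comb f A z) A' ≤
      ∑ n ∈ (Finset.univ : Finset (Fin a)) ×ˢ A, ‖z n‖ ^ r := by
  classical
  rw [Finset.sum_product, pm]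
  refine Finset.sum_le_sum fun j _ => ?_
  have h1 : ∑ q ∈ A', ‖comb f A z j (rep q)‖ ^ r = ∑ q ∈ A' ∩ A, ‖comb f A z j (rep q)‖ ^ r := by
    refine (Finset.sum_subset Finset.inter_subset_left fun q _ hq => ?_).symm
    have : q ∉ A := by
      intro h
      apply hq
      rw [Finset.mem_inter]
      exact ⟨by assumption, h⟩
    rw [comb_apply, cmk_rep, if_neg this, norm_zero, Real.zero_rpow (by linarith)]
  rw [h1]
  refine (Finset.sum_le_sum fun q _ => ?_).trans
    (Finset.sum_le_sum_of_subset_of_nonneg (Finset.inter_subset_right) fun _ _ _ => by positivity)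
  exact Real.rpow_le_rpow (norm_nonneg _) (norm_comb_le f A z j q) (by linarith)

lemma sop_comb (L : Matrix (Fin a) (Fin a) (MonoidAlgebra ℤ G)) (κ : ℝ) (f : Fin a → G → V)
    (A : Finset (Cos C)) (z : Fin a × Cos C → ℂ) (j : Fin a) (x : G) :
    ∑ n ∈ (Finset.univ : Finset (Fin a)) ×ˢ A, z n • sop L κ (part f n) j x =
      sop L κ (comb f A z) j x := by
  rw [comb, sop_sum, Finset.sum_apply, Finset.sum_apply]
  refine Finset.sum_congr rfl fun n _ => ?_
  rw [sop_smul]

lemma comb_self {f : Fin a → G → V} {A : Finset (Cos C)} (hf : IsFin π A f) :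
    comb f A (fun n => ((‖f n.1 (rep n.2)‖ : ℝ) : ℂ)) = f := by
  classical
  funext j x
  rw [comb_apply]
  by_cases h : cmk C x ∈ A
  · rw [if_pos h]
    have h1 : ‖f j (rep (cmk C x))‖ = ‖f j x‖ := (inva_norm hf.1 j).rep x
    simp only [h1]
    rcases eq_or_ne (f j x) 0 with h0 | h0
    · rw [h0, smul_zero, smul_zero]
    · rw [smul_smul, ← Complex.ofReal_mul, mul_inv_cancel₀ (norm_ne_zero_iff.2 h0),
        Complex.ofReal_one, one_smul]
  · rw [if_neg h]
    by_contra h0
    exact h (hf.2 j x (Ne.symm h0))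

/-- a bound for all combinations, from a bound on finite chains -/
def Bnd (π : URep C V) (L : Matrix (Fin a) (Fin a) (MonoidAlgebra ℤ G)) (κ r h : ℝ) : Prop :=
  ∀ (A : Finset (Cos C)) (f : Fin a → G → V), IsFin π A f → ∀ B : Finset (Cos C),
    pm r (sop L κ f) B ≤ h ^ r * pm r f A

lemma bnd_all (L : Matrix (Fin a) (Fin a) (MonoidAlgebra ℤ G)) {κ : ℝ} (hκ : 0 ≤ κ) {r : ℝ}
    (hr : 1 ≤ r) : Bnd π L κ r (1 + κ * absM L) := by
  intro A f hf B
  have hr0 : 0 < r := by linarith
  have h0 : 0 ≤ pm r f A := pm_nonneg _ _ _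
  have hM : Le r C f ((pm r f A) ^ (1 / r)) := by
    classical
    refine ⟨by positivity, fun A' => ?_⟩
    rw [← Real.rpow_mul h0, one_div_mul_cancel hr0.ne', Real.rpow_one]
    refine Finset.sum_le_sum fun j _ => ?_
    have h1 : ∑ q ∈ A', ‖f j (rep q)‖ ^ r = ∑ q ∈ A' ∩ A, ‖f j (rep q)‖ ^ r := by
      refine (Finset.sum_subset Finset.inter_subset_left fun q hq1 hq => ?_).symm
      have : q ∉ A := by
        intro h
        apply hq
        rw [Finset.mem_inter]
        exact ⟨hq1, h⟩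
      rw [hf.eq_zero j this, norm_zero, Real.zero_rpow (by linarith)]
    rw [h1]
    exact Finset.sum_le_sum_of_subset_of_nonneg Finset.inter_subset_right
      fun _ _ _ => by positivity
  have h2 := (hM.sop hr hf.1 L hκ).2 B
  have hh : 0 ≤ 1 + κ * absM L := by
    have := absM_nonneg L
    positivity
  rw [Real.mul_rpow hh (by positivity), ← Real.rpow_mul h0, one_div_mul_cancel hr0.ne',
    Real.rpow_one] at h2
  exact h2

lemma bnd_two {L : Matrix (Fin a) (Fin a) (MonoidAlgebra ℤ G)} {κ ρ : ℝ} (hρ : 0 ≤ ρ)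
    (h : ∀ (A : Finset (Cos C)) (v : Fin a → G → V), IsFin π A v →
      N2 C (sop L κ v) ≤ ρ ^ 2 * N2 C v) : Bnd π L κ 2 ρ := by
  classical
  intro A f hf B
  have h1 := h A f hf
  have h2 : pm 2 (sop L κ f) B ≤ N2 C (sop L κ f) := by
    have h3 := isFin_sop hf L κ
    rw [N2, pm]
    refine Finset.sum_le_sum fun j _ => ?_
    simp only [Real.rpow_two]
    exact (h3.summable j).sum_le_tsum B fun q _ => by positivity
  have h4 : N2 C f = pm 2 f A := by
    rw [hf.N2_eq, mass, pm]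
    simp only [Real.rpow_two]
  rw [← h4, Real.rpow_two]
  exact h2.trans h1

/-- interpolation -/
theorem bnd_interp {L : Matrix (Fin a) (Fin a) (MonoidAlgebra ℤ G)} {κ p₀ p₁ p h₀ h₁ s : ℝ}
    (hp0 : 1 < p₀) (hlt0 : p₀ < p) (hlt1 : p < p₁) (hh0 : 0 ≤ h₀) (hh1 : 0 ≤ h₁)
    (hs : s = (1 / p - 1 / p₁) / (1 / p₀ - 1 / p₁))
    (H0 : Bnd π L κ p₀ h₀) (H1 : Bnd π L κ p₁ h₁) : Bnd π L κ p (h₁ ^ (1 - s) * h₀ ^ s) := by
  intro A f hf B
  have key := RT.rt p₀ p₁ p h₀ h₁ hp0 hlt0 hlt1 hh0 hh1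
    ((Finset.univ : Finset (Fin a)) ×ˢ A) ((Finset.univ : Finset (Fin a)) ×ˢ B)
    (fun m n => sop L κ (part f n) m.1 (rep m.2)) (fun z => ?_) (fun z => ?_) s hs
    (fun n => ((‖f n.1 (rep n.2)‖ : ℝ) : ℂ))
  · simp only [sop_comb, comb_self hf] at key
    rw [← pm_eq] at key
    simp only [Complex.norm_real, norm_norm] at key
    rw [← pm_eq] at key
    exact key
  · simp only [sop_comb]
    rw [← pm_eq]
    refine (H0 A _ (isFin_comb hf.1 A z) B).trans ?_
    exact mul_le_mul_of_nonneg_left (pm_comb_le hp0.le f A A z) (by positivity)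
  · simp only [sop_comb]
    rw [← pm_eq]
    refine (H1 A _ (isFin_comb hf.1 A z) B).trans ?_
    exact mul_le_mul_of_nonneg_left (pm_comb_le (by linarith) f A A z) (by positivity)

end

end Pool.Agent.U670.ZP
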