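import Pool.Agent.U670.ZP.Near

set_option autoImplicit false
set_option linter.unusedSectionVars false

open scoped Matrix ENNReal Pointwise Topology
open Filter

namespace Pool.Agent.U670.ZP

open Pool.Agent.U670.ZS
open Pool.Agent.TH98.ZT (URep bd bd_add bd_zero)

noncomputable section

variable {G : Type} [Group G] {C : Subgroup G} {a b c : ℕ}
  {V : Type} [NormedAddCommGroup V] [InnerProductSpace ℂ V] {π : URep C V}

/-- multiplication by a weight -/
def wt (w : Cos C → ℝ) (f : Fin a → G → V) : Fin a → G → V :=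
  fun j x => ((w (cmk C x) : ℝ) : ℂ) • f j x

/-- the weight varies slowly -/
def SlowW (w : Cos C → ℝ) (S : Finset G) (ε : ℝ) : Prop :=
  (∀ q, 0 < w q) ∧ ∀ q, ∀ s ∈ S, |w (mulR q s) - w q| ≤ ε * w q

lemma IsLf.wt {f : Fin a → G → V} (hf : IsLf π f) (w : Cos C → ℝ) : IsLf π (wt w f) := by
  intro j c x
  change ((w (cmk C (c * x)) : ℝ) : ℂ) • f j (c * x) = π.hom c (((w (cmk C x) : ℝ) : ℂ) • f j x)
  rw [map_smul, hf, cmk_mul]
  rfl

lemma wt_theta {w : Cos C → ℝ} {S : Finset G} {ε : ℝ} (hw : SlowW w S ε) {g : G} (hg : g ∈ S)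
    (x : G) : |(w (cmk C x) - w (cmk C (x * g⁻¹))) / w (cmk C (x * g⁻¹))| ≤ ε := by
  have h1 := hw.2 (cmk C (x * g⁻¹)) g hg
  rw [mulR_cmk, inv_mul_cancel_right] at h1
  have h2 := hw.1 (cmk C (x * g⁻¹))
  rw [abs_div, abs_of_pos h2, div_le_iff₀ h2]
  exact h1

/-- the boundary of a chain with a weight -/
lemma Le.wt_bd {p : ℝ} (hp : 1 ≤ p) {w : Cos C → ℝ} {S : Finset G} {ε : ℝ} (hw : SlowW w S ε)
    (hε : 0 ≤ ε) {f : Fin a → G → V} {M : ℝ} (hl : IsLf π f) (hf : Le p C (wt w f) M)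
    (D : Matrix (Fin a) (Fin b) (MonoidAlgebra ℤ G)) (hS : SD D ⊆ S) :
    Le p C (wt w (TH98.ZT.bd D f)) ((1 + ε) * (absM D * M)) := by
  have h1 := hf.bdθ hp (IsLf.wt hl w) D (e := 1 + ε) (by positivity)
    (fun g x => ((w (cmk C x) / w (cmk C (x * g⁻¹)) : ℝ) : ℂ)) (fun g hg x => ?_)
  · refine h1.dom hp fun k x => le_of_eq ?_
    congr 1
    change ((w (cmk C x) : ℝ) : ℂ) • (∑ j, ∑ g ∈ (D j k).coeff.support,
      (D j k).coeff g • f j (x * g⁻¹)) = _
    rw [Finset.smul_sum]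
    refine Finset.sum_congr rfl fun j _ => ?_
    rw [Finset.smul_sum]
    refine Finset.sum_congr rfl fun g _ => ?_
    have h2 := (hw.1 (cmk C (x * g⁻¹))).ne'
    rw [smul_comm]
    congr 1
    change _ = _ • (((w (cmk C (x * g⁻¹)) : ℝ) : ℂ) • f j (x * g⁻¹))
    rw [smul_smul, ← Complex.ofReal_mul, div_mul_cancel₀ _ h2]
  · have h2 := wt_theta hw (hS hg) x
    have h3 := hw.1 (cmk C (x * g⁻¹))
    have h4 := hw.1 (cmk C x)
    rw [Complex.norm_real, Real.norm_of_nonneg (by positivity)]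
    rw [sub_div, div_self h3.ne'] at h2
    linarith [(abs_le.1 h2).2]

/-- the contraction with a weight -/
lemma Le.wt_sop {p : ℝ} (hp : 1 ≤ p) {w : Cos C → ℝ} {S : Finset G} {ε : ℝ} (hw : SlowW w S ε)
    (hε : 0 ≤ ε) {L : Matrix (Fin a) (Fin a) (MonoidAlgebra ℤ G)} (hS : SD L ⊆ S) {κ h : ℝ}
    (hκ : 0 ≤ κ) (hh : 0 ≤ h) (H : Bnd π L κ p h) {f : Fin a → G → V} {M : ℝ} (hl : IsLf π f)
    (hf : Le p C (wt w f) M) :
    Le p C (wt w (ZP.sop L κ f)) ((h + κ * ε * absM L) * M) := by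
  have h1 := Le.of_bnd hp hh H (IsLf.wt hl w) hf
  have h2 := hf.bdθ hp (IsLf.wt hl w) L (e := ε) hε
    (fun g x => (((w (cmk C x) - w (cmk C (x * g⁻¹))) / w (cmk C (x * g⁻¹)) : ℝ) : ℂ))
    (fun g hg x => by
      rw [Complex.norm_real, Real.norm_eq_abs]
      exact wt_theta hw (hS hg) x)
  set R : Fin a → G → V := fun k x => ∑ j, ∑ g ∈ (L j k).coeff.support, (L j k).coeff g •
      ((((w (cmk C x) - w (cmk C (x * g⁻¹))) / w (cmk C (x * g⁻¹)) : ℝ) : ℂ) •
        wt w f j (x * g⁻¹)) with hR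
  have h3 : Le p C (fun k x => -(((κ : ℝ) : ℂ) • R k x)) (κ * (ε * (absM L * M))) := by
    refine Le.smul' hp h2 hκ fun j x => ?_
    rw [norm_neg, norm_smul, Complex.norm_real, Real.norm_of_nonneg hκ]
  have h4 := h1.add hp h3
  have e : ZP.sop L κ (wt w f) + (fun k x => -(((κ : ℝ) : ℂ) • R k x)) = wt w (ZP.sop L κ f) := by
    funext k x
    change (wt w f k x - ((κ : ℝ) : ℂ) • TH98.ZT.bd L (wt w f) k x) + -(((κ : ℝ) : ℂ) • R k x) =
      ((w (cmk C x) : ℝ) : ℂ) • (f k x - ((κ : ℝ) : ℂ) • TH98.ZT.bd L f k x)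
    have e1 : TH98.ZT.bd L (wt w f) k x + R k x =
        ((w (cmk C x) : ℝ) : ℂ) • TH98.ZT.bd L f k x := by
      rw [hR]
      change (∑ j, ∑ g ∈ (L j k).coeff.support, (L j k).coeff g • wt w f j (x * g⁻¹)) +
        (∑ j, ∑ g ∈ (L j k).coeff.support, _) = ((w (cmk C x) : ℝ) : ℂ) •
        (∑ j, ∑ g ∈ (L j k).coeff.support, (L j k).coeff g • f j (x * g⁻¹))
      rw [← Finset.sum_add_distrib, Finset.smul_sum]
      refine Finset.sum_congr rfl fun j _ => ?_
      rw [← Finset.sum_add_distrib, Finset.smul_sum]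
      refine Finset.sum_congr rfl fun g _ => ?_
      have h5 := (hw.1 (cmk C (x * g⁻¹))).ne'
      rw [← smul_add, smul_comm (((w (cmk C x) : ℝ) : ℂ))]
      congr 1
      change ((w (cmk C (x * g⁻¹)) : ℝ) : ℂ) • f j (x * g⁻¹) +
        _ • (((w (cmk C (x * g⁻¹)) : ℝ) : ℂ) • f j (x * g⁻¹)) = _
      rw [smul_smul, ← Complex.ofReal_mul, div_mul_cancel₀ _ h5, ← add_smul,
        ← Complex.ofReal_add]
      congr 2
      ring
    rw [smul_sub, smul_comm (((w (cmk C x) : ℝ) : ℂ)), ← e1, smul_add, sub_add_eq_sub_sub,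
      sub_eq_add_neg _ (((κ : ℝ) : ℂ) • R k x)]
    rfl
  rw [e] at h4
  refine h4.mono hp (le_of_eq ?_)
  ring

/-- pointwise bound -/
lemma Le.point {p : ℝ} (hp : 1 ≤ p) {w : Cos C → ℝ} (hw : ∀ q, 0 < w q) {f : Fin a → G → V} {M : ℝ}
    (hl : IsLf π f) (hf : Le p C (wt w f) M) (j : Fin a) (x : G) :
    ‖f j x‖ ≤ M / w (cmk C x) := by
  have hp0 : 0 < p := by linarith
  have h1 := hf.2 {cmk C x}
  rw [pm] at h1
  have h2 : ‖wt w f j (rep (cmk C x))‖ ^ p ≤ M ^ p := by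
    refine le_trans ?_ h1
    refine le_trans (le_of_eq ?_) (Finset.single_le_sum (f := fun j => ∑ q ∈ {cmk C x},
      ‖wt w f j (rep q)‖ ^ p) (fun _ _ => Finset.sum_nonneg fun _ _ => by positivity)
      (Finset.mem_univ j))
    rw [Finset.sum_singleton]
  have h3 : ‖wt w f j (rep (cmk C x))‖ ≤ M :=
    (Real.rpow_le_rpow_iff (norm_nonneg _) hf.1 hp0).1 h2
  have h4 : ‖wt w f j (rep (cmk C x))‖ = ‖wt w f j x‖ := (inva_norm (IsLf.wt hl w) j).rep x
  rw [h4] at h3
  change ‖((w (cmk C x) : ℝ) : ℂ) • f j x‖ ≤ M at h3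
  rw [norm_smul, Complex.norm_real, Real.norm_of_nonneg (hw _).le] at h3
  rw [le_div_iff₀ (hw _), mul_comm]
  exact h3

lemma hasSum_bd (D : Matrix (Fin a) (Fin b) (MonoidAlgebra ℤ G)) {F : ℕ → Fin a → G → V}
    {f : Fin a → G → V} (h : ∀ j x, HasSum (fun r => F r j x) (f j x)) (k : Fin b) (x : G) :
    HasSum (fun r => TH98.ZT.bd D (F r) k x) (TH98.ZT.bd D f k x) := by
  refine hasSum_sum fun j _ => hasSum_sum fun g _ => ?_
  simp only [← Int.cast_smul_eq_zsmul ℂ]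
  exact (h j (x * g⁻¹)).const_smul _

section inv

variable {p : ℝ} {w : Cos C → ℝ} {S : Finset G} {ε : ℝ}
  {L : Matrix (Fin a) (Fin a) (MonoidAlgebra ℤ G)} {κ h : ℝ}

lemma iter_lf {f : Fin a → G → V} (hl : IsLf π f) (r : ℕ) : IsLf π ((ZP.sop L κ)^[r] f) := by
  induction r with
  | zero => exact hl
  | succ r ih =>
    rw [Function.iterate_succ_apply']
    exact IsLf.sop ih

lemma iter_le (hp : 1 ≤ p) (hw : SlowW w S ε) (hε : 0 ≤ ε) (hS : SD L ⊆ S) (hκ : 0 ≤ κ)
    (hh : 0 ≤ h) (H : Bnd π L κ p h) {f : Fin a → G → V} {M : ℝ} (hl : IsLf π f)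
    (hf : Le p C (wt w f) M) (r : ℕ) :
    Le p C (wt w ((ZP.sop L κ)^[r] f)) ((h + κ * ε * absM L) ^ r * M) := by
  induction r with
  | zero => rw [pow_zero, one_mul]; exact hf
  | succ r ih =>
    rw [Function.iterate_succ_apply']
    refine (Le.wt_sop hp hw hε hS hκ hh H (iter_lf hl r) ih).mono hp (le_of_eq ?_)
    ring

/-- uniqueness -/
theorem inv_unique (hp : 1 ≤ p) (hw : SlowW w S ε) (hε : 0 ≤ ε) (hS : SD L ⊆ S) (hκ : 0 ≤ κ)
    (hh : 0 ≤ h) (H : Bnd π L κ p h) (h1 : h + κ * ε * absM L < 1) {f : Fin a → G → V} {M : ℝ}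
    (hl : IsLf π f) (hf : Le p C (wt w f) M) (h0 : TH98.ZT.bd L f = 0) : f = 0 := by
  have e1 : ZP.sop L κ f = f := by
    funext j x
    change f j x - ((κ : ℝ) : ℂ) • TH98.ZT.bd L f j x = f j x
    rw [h0]
    simp
  have e2 : ∀ r, (ZP.sop L κ)^[r] f = f := by
    intro r
    induction r with
    | zero => rfl
    | succ r ih => rw [Function.iterate_succ_apply', ih, e1]
  have hρ0 : 0 ≤ h + κ * ε * absM L := by
    have := absM_nonneg L
    positivity
  funext j x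
  have h2 : ∀ r : ℕ, ‖f j x‖ ≤ (h + κ * ε * absM L) ^ r * M / w (cmk C x) := by
    intro r
    have := (iter_le hp hw hε hS hκ hh H hl hf r).point hp hw.1 (iter_lf hl r) j x
    rwa [e2] at this
  have h3 : Tendsto (fun r : ℕ => (h + κ * ε * absM L) ^ r * M / w (cmk C x)) atTop (𝓝 0) := by
    have h4 := tendsto_pow_atTop_nhds_zero_of_lt_one hρ0 h1
    have h5 := (h4.mul_const M).div_const (w (cmk C x))
    simpa using h5
  have h4 : ‖f j x‖ ≤ 0 := ge_of_tendsto' h3 h2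
  exact norm_le_zero_iff.1 h4

/-- existence -/
theorem inv_exists [CompleteSpace V] (hp : 1 ≤ p) (hw : SlowW w S ε) (hε : 0 ≤ ε) (hS : SD L ⊆ S)
    (hκ : 0 < κ) (hh : 0 ≤ h) (H : Bnd π L κ p h) (h1 : h + κ * ε * absM L < 1)
    {f : Fin a → G → V} {M : ℝ} (hl : IsLf π f) (hf : Le p C (wt w f) M) :
    ∃ u : Fin a → G → V, IsLf π u ∧ TH98.ZT.bd L u = f ∧
      Le p C (wt w u) (κ * (M / (1 - (h + κ * ε * absM L)))) := by
  have hp0 : 0 < p := by linarith
  set ρ := h + κ * ε * absM L with hρ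
  have hρ0 : 0 ≤ ρ := by
    have := absM_nonneg L
    positivity
  have hM := hf.1
  have hsum : ∀ j x, Summable fun r => (ZP.sop L κ)^[r] f j x := by
    intro j x
    refine Summable.of_norm_bounded (g := fun r => ρ ^ r * (M / w (cmk C x)))
      ((summable_geometric_of_lt_one hρ0 h1).mul_right _) fun r => ?_
    have := (iter_le hp hw hε hS hκ.le hh H hl hf r).point hp hw.1 (iter_lf hl r) j x
    rwa [mul_div_assoc] at this
  set u : Fin a → G → V := fun j x => ((κ : ℝ) : ℂ) • ∑' r, (ZP.sop L κ)^[r] f j x with hu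
  have hus : ∀ j x, HasSum (fun r => ((κ : ℝ) : ℂ) • (ZP.sop L κ)^[r] f j x) (u j x) := fun j x =>
    (hsum j x).hasSum.const_smul _
  have hul : IsLf π u := by
    intro j c x
    change ((κ : ℝ) : ℂ) • ∑' r, (ZP.sop L κ)^[r] f j (c * x) =
      π.hom c (((κ : ℝ) : ℂ) • ∑' r, (ZP.sop L κ)^[r] f j x)
    rw [map_smul]
    congr 1
    have e1 : (fun r => (ZP.sop L κ)^[r] f j (c * x)) =
        fun r => π.hom c ((ZP.sop L κ)^[r] f j x) := by
      funext r
      exact iter_lf hl r j c x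
    rw [e1]
    exact ((hsum j x).hasSum.mapL
      ((π.hom c).toContinuousLinearEquiv : V →L[ℂ] V)).tsum_eq
  refine ⟨u, hul, ?_, ?_⟩
  · funext k x
    have h2 := hasSum_bd L hus k x
    have h3 : ∀ r, TH98.ZT.bd L (fun j x => ((κ : ℝ) : ℂ) • (ZP.sop L κ)^[r] f j x) k x =
        (ZP.sop L κ)^[r] f k x - (ZP.sop L κ)^[r + 1] f k x := by
      intro r
      rw [bd_smul, Function.iterate_succ_apply']
      change _ = (ZP.sop L κ)^[r] f k x - ((ZP.sop L κ)^[r] f k x -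
        ((κ : ℝ) : ℂ) • TH98.ZT.bd L ((ZP.sop L κ)^[r] f) k x)
      rw [sub_sub_cancel]
    simp only [h3] at h2
    have h4 := (hsum k x).hasSum
    have h5 := (hasSum_nat_add_iff (f := fun r => (ZP.sop L κ)^[r] f k x) 1
      (g := (∑' r, (ZP.sop L κ)^[r] f k x) - f k x)).2 (by
        rw [Finset.sum_range_one]
        change HasSum _ (_ - f k x + f k x)
        rw [sub_add_cancel]
        exact h4)
    have h6 := h4.sub h5
    have h7 := h2.unique h6
    rw [h7]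
    abel
  · have hc : 0 ≤ κ * (M / (1 - ρ)) := by
      have : 0 < 1 - ρ := by linarith
      positivity
    refine ⟨hc, fun A => ?_⟩
    set U : ℕ → Fin a → G → V := fun R => ∑ r ∈ Finset.range R,
      fun j x => ((κ : ℝ) : ℂ) • (ZP.sop L κ)^[r] f j x with hU
    have h2 : ∀ R, Le p C (wt w (U R)) (κ * (M / (1 - ρ))) := by
      intro R
      have e1 : wt w (U R) = ∑ r ∈ Finset.range R,
          fun j x => ((κ : ℝ) : ℂ) • wt w ((ZP.sop L κ)^[r] f) j x := by
        funext j x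
        simp only [wt, hU, Finset.sum_apply, Finset.smul_sum]
        refine Finset.sum_congr rfl fun r _ => ?_
        rw [smul_comm]
      rw [e1]
      have h3 := Le.sum hp (Finset.range R) (C := C)
        (f := fun r => fun j x => ((κ : ℝ) : ℂ) • wt w ((ZP.sop L κ)^[r] f) j x)
        (M := fun r => κ * (ρ ^ r * M)) (fun r _ => by
          refine Le.smul' hp (iter_le hp hw hε hS hκ.le hh H hl hf r) hκ.le fun j x => ?_
          rw [norm_smul, Complex.norm_real, Real.norm_of_nonneg hκ.le])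
      refine h3.mono hp ?_
      rw [← Finset.mul_sum, ← Finset.sum_mul]
      refine mul_le_mul_of_nonneg_left ?_ hκ.le
      have h4 : ∑ r ∈ Finset.range R, ρ ^ r ≤ (1 - ρ)⁻¹ := by
        have := (summable_geometric_of_lt_one hρ0 h1).sum_le_tsum (Finset.range R)
          (fun r _ => by positivity)
        rwa [tsum_geometric_of_lt_one hρ0 h1] at this
      calc (∑ r ∈ Finset.range R, ρ ^ r) * M ≤ (1 - ρ)⁻¹ * M := by gcongr
        _ = M / (1 - ρ) := by rw [div_eq_inv_mul]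
    have h3 : Tendsto (fun R => pm p (wt w (U R)) A) atTop (𝓝 (pm p (wt w u) A)) := by
      refine tendsto_finset_sum _ fun j _ => tendsto_finset_sum _ fun q _ => ?_
      refine Tendsto.rpow_const ?_ (Or.inr hp0.le)
      refine Tendsto.norm ?_
      have h4 : Tendsto (fun R => U R j (rep q)) atTop (𝓝 (u j (rep q))) := by
        have h5 := (hus j (rep q)).tendsto_sum_nat
        refine h5.congr fun R => ?_
        simp only [hU, Finset.sum_apply]
      exact h4.const_smul _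
    exact le_of_tendsto' h3 fun R => (h2 R).2 A

end inv

end

end Pool.Agent.U670.ZP
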