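import Pool.Agent.U670.ZP.Lp

set_option autoImplicit false
set_option linter.unusedSectionVars false

open scoped Matrix ENNReal Pointwise

namespace Pool.Agent.U670.ZP

open Pool.Agent.U670.ZS
open Pool.Agent.TH98.ZT (URep bd)

noncomputable section

variable {G : Type} [Group G] {C : Subgroup G} {a b c : ℕ}
  {V : Type} [NormedAddCommGroup V] [InnerProductSpace ℂ V] {π : URep C V}

lemma bd_add_mat {W : Type} [AddCommGroup W] (A B : Matrix (Fin a) (Fin b) (MonoidAlgebra ℤ G))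
    (f : Fin a → G → W) : bd (A + B) f = bd A f + bd B f := by
  funext l
  rw [Pi.add_apply, bd_eq, bd_eq, bd_eq, ← Finset.sum_add_distrib]
  refine Finset.sum_congr rfl fun j _ => ?_
  rw [Matrix.add_apply, lt_add]

/-- the operator `1 - κ L` -/
def sop (L : Matrix (Fin a) (Fin a) (MonoidAlgebra ℤ G)) (κ : ℝ) (f : Fin a → G → V) :
    Fin a → G → V := f - fun j x => ((κ : ℝ) : ℂ) • bd L f j x

/-- the matrix of the Laplacian -/
def lapM (D1 : Matrix (Fin a) (Fin b) (MonoidAlgebra ℤ G))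
    (D2 : Matrix (Fin a) (Fin c) (MonoidAlgebra ℤ G)) : Matrix (Fin a) (Fin a) (MonoidAlgebra ℤ G) :=
  D1 * adjM D1 + D2 * adjM D2

lemma bd_lapM {W : Type} [AddCommGroup W] (D1 : Matrix (Fin a) (Fin b) (MonoidAlgebra ℤ G))
    (D2 : Matrix (Fin a) (Fin c) (MonoidAlgebra ℤ G)) (f : Fin a → G → W) :
    bd (lapM D1 D2) f = bd (adjM D1) (bd D1 f) + bd (adjM D2) (bd D2 f) := by
  rw [lapM, bd_add_mat, bd_mul, bd_mul]

lemma IsLf.smulR {f : Fin a → G → V} (hf : IsLf π f) (κ : ℂ) : IsLf π (fun j x => κ • f j x) := by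
  intro j c x
  change κ • f j (c * x) = π.hom c (κ • f j x)
  rw [map_smul, hf]
  rfl

lemma IsLf.sub' {f g : Fin a → G → V} (hf : IsLf π f) (hg : IsLf π g) : IsLf π (f - g) := by
  intro j c x
  change f j (c * x) - g j (c * x) = π.hom c (f j x - g j x)
  rw [map_sub, hf, hg]
  rfl

lemma IsLf.add' {f g : Fin a → G → V} (hf : IsLf π f) (hg : IsLf π g) : IsLf π (f + g) := by
  intro j c x
  change f j (c * x) + g j (c * x) = π.hom c (f j x + g j x)
  rw [map_add, hf, hg]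
  rfl

lemma IsLf.sop {L : Matrix (Fin a) (Fin a) (MonoidAlgebra ℤ G)} {κ : ℝ} {f : Fin a → G → V}
    (hf : IsLf π f) : IsLf π (sop L κ f) :=
  IsLf.sub' hf (IsLf.smulR (hf.bd L) _)

lemma mass_add_le (u w : Fin a → G → V) (A : Finset (Cos C)) :
    mass (u + w) A ≤ 2 * (mass u A + mass w A) := by
  rw [mass, mass, mass, ← Finset.sum_add_distrib, Finset.mul_sum]
  refine Finset.sum_le_sum fun j _ => ?_
  rw [← Finset.sum_add_distrib, Finset.mul_sum]
  refine Finset.sum_le_sum fun q _ => ?_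
  have h := norm_add_le (u j (rep q)) (w j (rep q))
  have h1 : ‖(u + w) j (rep q)‖ ^ 2 ≤ (‖u j (rep q)‖ + ‖w j (rep q)‖) ^ 2 :=
    pow_le_pow_left₀ (norm_nonneg _) h 2
  nlinarith [sq_nonneg (‖u j (rep q)‖ - ‖w j (rep q)‖)]

lemma pair_add (u w w' : Fin a → G → V) (A : Finset (Cos C)) :
    pair u (w + w') A = pair u w A + pair u w' A := by
  simp only [pair, Pi.add_apply, inner_add_right, Finset.sum_add_distrib]

open Classical in
lemma isFin_sop {A : Finset (Cos C)} {v : Fin a → G → V} (hv : IsFin π A v)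
    (L : Matrix (Fin a) (Fin a) (MonoidAlgebra ℤ G)) (κ : ℝ) :
    IsFin π (A ∪ Finset.image₂ mulR A (SD L)) (sop L κ v) :=
  (hv.mono Finset.subset_union_left).sub
    (((hv.bd (D := L) subset_rfl).mono Finset.subset_union_right).smul κ)

/-- the contraction of the square summable chains -/
theorem l2_contr (D1 : Matrix (Fin a) (Fin b) (MonoidAlgebra ℤ G))
    (D2 : Matrix (Fin a) (Fin c) (MonoidAlgebra ℤ G)) {K B : ℝ} (hK0 : 0 ≤ K) (hB0 : 0 ≤ B)
    (hK : ∀ (A : Finset (Cos C)) (v : Fin a → G → V), IsFin π A v →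
      N2 C v ≤ K * (N2 C (bd D1 v) + N2 C (bd D2 v)))
    (hB1 : ∀ (A : Finset (Cos C)) (v : Fin b → G → V), IsFin π A v →
      N2 C (bd (adjM D1) v) ≤ B * N2 C v)
    (hB2 : ∀ (A : Finset (Cos C)) (v : Fin c → G → V), IsFin π A v →
      N2 C (bd (adjM D2) v) ≤ B * N2 C v)
    (A : Finset (Cos C)) (v : Fin a → G → V) (hv : IsFin π A v) :
    N2 C (sop (lapM D1 D2) (2 * B + 1)⁻¹ v) ≤ (1 - (2 * B + 1)⁻¹ / (K + 1)) * N2 C v := by
  classical
  set κ : ℝ := (2 * B + 1)⁻¹ with hκ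
  have hκ0 : 0 < κ := by rw [hκ]; positivity
  set n1 : ℝ := N2 C (bd D1 v) with hn1
  set n2 : ℝ := N2 C (bd D2 v) with hn2
  have hn10 : 0 ≤ n1 := N2_nonneg _
  have hn20 : 0 ≤ n2 := N2_nonneg _
  have f1 := hv.bd (D := D1) (S := SD D1) subset_rfl
  have f2 := hv.bd (D := D2) (S := SD D2) subset_rfl
  have g1 := f1.bd (D := adjM D1) (S := SD (adjM D1)) subset_rfl
  have g2 := f2.bd (D := adjM D2) (S := SD (adjM D2)) subset_rfl
  set A1 := Finset.image₂ mulR (Finset.image₂ mulR A (SD D1)) (SD (adjM D1)) with hA1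
  set A2 := Finset.image₂ mulR (Finset.image₂ mulR A (SD D2)) (SD (adjM D2)) with hA2
  set T := A ∪ (A1 ∪ A2) with hT
  have k0 : IsFin π T v := hv.mono Finset.subset_union_left
  have k1 : IsFin π T (bd (adjM D1) (bd D1 v)) :=
    g1.mono (Finset.subset_union_left.trans Finset.subset_union_right)
  have k2 : IsFin π T (bd (adjM D2) (bd D2 v)) :=
    g2.mono (Finset.subset_union_right.trans Finset.subset_union_right)
  have kL : IsFin π T (bd (lapM D1 D2) v) := by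
    rw [bd_lapM]
    refine ⟨IsLf.add' k1.1 k2.1, fun j x hx => ?_⟩
    by_cases h : bd (adjM D1) (bd D1 v) j x = 0
    · refine k2.2 j x fun h' => hx ?_
      rw [Pi.add_apply, Pi.add_apply, h, h', add_zero]
    · exact k1.2 j x h
  have kS : IsFin π T (sop (lapM D1 D2) κ v) := k0.sub (kL.smul κ)
  have e1 : pair v (bd (lapM D1 D2) v) T = ((n1 + n2 : ℝ) : ℂ) := by
    rw [bd_lapM, pair_add, ← k1.ipr_eq, ← k2.ipr_eq, bd_adjM, bd_adjM, ← ipr_bd hv.1 f1 D1,
      ← ipr_bd hv.1 f2 D2, f1.ipr_eq, f2.ipr_eq, pair_self, pair_self, ← f1.N2_eq, ← f2.N2_eq]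
    push_cast
    rfl
  have e2 : N2 C (bd (lapM D1 D2) v) ≤ 2 * B * (n1 + n2) := by
    rw [kL.N2_eq, bd_lapM]
    refine (mass_add_le _ _ _).trans ?_
    rw [← k1.N2_eq, ← k2.N2_eq]
    have h1 := hB1 _ _ f1
    have h2 := hB2 _ _ f2
    nlinarith
  have e3 : N2 C (sop (lapM D1 D2) κ v) = N2 C v - 2 * κ * (n1 + n2) +
      κ ^ 2 * N2 C (bd (lapM D1 D2) v) := by
    rw [kS.N2_eq, sop, mass_sub_smul, e1, Complex.ofReal_re, ← k0.N2_eq, ← kL.N2_eq]
  have e4 : κ ^ 2 * N2 C (bd (lapM D1 D2) v) ≤ κ * (n1 + n2) := by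
    have h1 : κ ^ 2 * N2 C (bd (lapM D1 D2) v) ≤ κ ^ 2 * (2 * B * (n1 + n2)) :=
      mul_le_mul_of_nonneg_left e2 (by positivity)
    have h2 : κ * (2 * B) ≤ 1 := by
      rw [hκ, inv_mul_le_iff₀ (by positivity)]
      linarith
    have h3 : κ ^ 2 * (2 * B * (n1 + n2)) = (κ * (2 * B)) * (κ * (n1 + n2)) := by ring
    rw [h3] at h1
    refine h1.trans ?_
    have : 0 ≤ κ * (n1 + n2) := by positivity
    nlinarith
  have e5 : κ / (K + 1) * N2 C v ≤ κ * (n1 + n2) := by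
    have h1 := hK A v hv
    rw [div_mul_eq_mul_div, div_le_iff₀ (by positivity)]
    have h2 : κ * N2 C v ≤ κ * (K * (n1 + n2)) := mul_le_mul_of_nonneg_left h1 hκ0.le
    have h3 : 0 ≤ κ * (n1 + n2) := by positivity
    nlinarith
  rw [e3]
  nlinarith

end

end Pool.Agent.U670.ZP
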