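import Pool.Agent.U670.ZS.Main

set_option autoImplicit false
set_option linter.unusedSectionVars false

open scoped Matrix ENNReal Pointwise

namespace Pool.Agent.U670.ZP

open Pool.Agent.U670.ZS
open Pool.Agent.TH98.ZT (URep bd)

noncomputable section

variable {G : Type} [Group G] {C : Subgroup G} {a b : ℕ}

section norm

variable {E : Type} [NormedAddCommGroup E]

/-- the sum of the `p`-th powers of the norms over the finite set `A` of cosets -/
def pm (p : ℝ) (f : Fin a → G → E) (A : Finset (Cos C)) : ℝ :=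
  ∑ j, ∑ q ∈ A, ‖f j (rep q)‖ ^ p

/-- the `ℓ^p`-norm of `f` is at most `M` -/
def Le (p : ℝ) (C : Subgroup G) (f : Fin a → G → E) (M : ℝ) : Prop :=
  0 ≤ M ∧ ∀ A : Finset (Cos C), pm p f A ≤ M ^ p

lemma pm_nonneg (p : ℝ) (f : Fin a → G → E) (A : Finset (Cos C)) : 0 ≤ pm p f A :=
  Finset.sum_nonneg fun _ _ => Finset.sum_nonneg fun _ _ => by positivity

lemma pm_eq (p : ℝ) (f : Fin a → G → E) (A : Finset (Cos C)) :
    pm p f A = ∑ i ∈ (Finset.univ : Finset (Fin a)) ×ˢ A, ‖f i.1 (rep i.2)‖ ^ p := by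
  rw [Finset.sum_product]
  rfl

lemma Le.mono {p : ℝ} (hp : 1 ≤ p) {f : Fin a → G → E} {M N : ℝ} (h : Le p C f M) (hMN : M ≤ N) :
    Le p C f N :=
  ⟨h.1.trans hMN, fun A => (h.2 A).trans (Real.rpow_le_rpow h.1 hMN (by linarith))⟩

lemma Le.zero {p : ℝ} (hp : 1 ≤ p) : Le p C (0 : Fin a → G → E) 0 := by
  refine ⟨le_rfl, fun A => ?_⟩
  simp [pm, Real.zero_rpow (by linarith : p ≠ 0)]

lemma Le.dom {E' : Type} [NormedAddCommGroup E'] {p : ℝ} (hp : 1 ≤ p) {f : Fin a → G → E}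
    {g : Fin a → G → E'} {M : ℝ} (h : Le p C g M) (hfg : ∀ j x, ‖f j x‖ ≤ ‖g j x‖) :
    Le p C f M := by
  refine ⟨h.1, fun A => le_trans ?_ (h.2 A)⟩
  refine Finset.sum_le_sum fun j _ => Finset.sum_le_sum fun q _ => ?_
  exact Real.rpow_le_rpow (norm_nonneg _) (hfg _ _) (by linarith)

lemma rpow_inv_le {p x M : ℝ} (hp : 1 ≤ p) (hx : 0 ≤ x) (hM : 0 ≤ M) :
    x ^ (1 / p) ≤ M ↔ x ≤ M ^ p := by
  have hp0 : 0 < p := by linarith
  rw [one_div]
  exact Real.rpow_inv_le_iff_of_pos hx hM hp0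

lemma Le.add {p : ℝ} (hp : 1 ≤ p) {f g : Fin a → G → E} {M N : ℝ} (hf : Le p C f M)
    (hg : Le p C g N) : Le p C (f + g) (M + N) := by
  refine ⟨add_nonneg hf.1 hg.1, fun A => ?_⟩
  set s := (Finset.univ : Finset (Fin a)) ×ˢ A with hs
  have h1 := Real.Lp_add_le_of_nonneg (s := s) (f := fun i => ‖f i.1 (rep i.2)‖)
    (g := fun i => ‖g i.1 (rep i.2)‖) hp (fun _ _ => norm_nonneg _) (fun _ _ => norm_nonneg _)
  have hf1 : (∑ i ∈ s, ‖f i.1 (rep i.2)‖ ^ p) ^ (1 / p) ≤ M := by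
    rw [rpow_inv_le hp (Finset.sum_nonneg fun _ _ => by positivity) hf.1, ← pm_eq]
    exact hf.2 A
  have hg1 : (∑ i ∈ s, ‖g i.1 (rep i.2)‖ ^ p) ^ (1 / p) ≤ N := by
    rw [rpow_inv_le hp (Finset.sum_nonneg fun _ _ => by positivity) hg.1, ← pm_eq]
    exact hg.2 A
  have h2 := (rpow_inv_le hp (Finset.sum_nonneg fun _ _ => by positivity)
    (add_nonneg hf.1 hg.1)).1 (h1.trans (add_le_add hf1 hg1))
  rw [pm_eq]
  refine (Finset.sum_le_sum fun i _ => ?_).trans h2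
  exact Real.rpow_le_rpow (norm_nonneg _) (norm_add_le _ _) (by linarith)

lemma Le.sum {p : ℝ} (hp : 1 ≤ p) {ι : Type} (s : Finset ι) {f : ι → Fin a → G → E} {M : ι → ℝ}
    (h : ∀ i ∈ s, Le p C (f i) (M i)) : Le p C (∑ i ∈ s, f i) (∑ i ∈ s, M i) := by
  classical
  induction s using Finset.induction_on with
  | empty => simpa using Le.zero hp
  | insert i s hi ih =>
    rw [Finset.sum_insert hi, Finset.sum_insert hi]
    exact (h i (Finset.mem_insert_self _ _)).add hp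
      (ih fun k hk => h k (Finset.mem_insert_of_mem hk))

lemma Le.smul' {p : ℝ} (hp : 1 ≤ p) {E' : Type} [NormedAddCommGroup E'] {f : Fin a → G → E}
    {g : Fin a → G → E'} {M c : ℝ} (hf : Le p C f M) (hc : 0 ≤ c)
    (hg : ∀ j x, ‖g j x‖ ≤ c * ‖f j x‖) : Le p C g (c * M) := by
  refine ⟨mul_nonneg hc hf.1, fun A => ?_⟩
  rw [Real.mul_rpow hc hf.1]
  refine le_trans ?_ (mul_le_mul_of_nonneg_left (hf.2 A) (by positivity))
  rw [pm, pm, Finset.mul_sum]
  refine Finset.sum_le_sum fun j _ => ?_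
  rw [Finset.mul_sum]
  refine Finset.sum_le_sum fun q _ => ?_
  rw [← Real.mul_rpow hc (norm_nonneg _)]
  exact Real.rpow_le_rpow (norm_nonneg _) (hg _ _) (by linarith)

/-- translation of one component to another component -/
lemma Le.move {p : ℝ} (hp : 1 ≤ p) {f : Fin a → G → E} {M : ℝ}
    (hf : Le p C f M) (hinv : ∀ j, Inva C fun x => ‖f j x‖) (j : Fin a) (k : Fin b) (g : G) :
    Le p C (fun (k' : Fin b) (x : G) => if k' = k then ‖f j (x * g⁻¹)‖ else (0 : ℝ)) M := by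
  classical
  refine ⟨hf.1, fun A => ?_⟩
  have h1 : pm p (fun (k' : Fin b) (x : G) => if k' = k then ‖f j (x * g⁻¹)‖ else (0 : ℝ)) A =
      ∑ q ∈ A, ‖f j (rep q * g⁻¹)‖ ^ p := by
    rw [pm, Finset.sum_eq_single k]
    · simp
    · intro k' _ hk'
      simp [hk', Real.zero_rpow (by linarith : p ≠ 0)]
    · intro h
      exact absurd (Finset.mem_univ _) h
  rw [h1]
  have h2 : ∑ q ∈ A, ‖f j (rep q * g⁻¹)‖ ^ p =
      ∑ q ∈ A.map (mulE g⁻¹).toEmbedding, ‖f j (rep q)‖ ^ p := by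
    rw [Finset.sum_map]
    refine Finset.sum_congr rfl fun q _ => ?_
    congr 1
    exact ((hinv j).rep (rep q * g⁻¹)).symm
  rw [h2]
  refine le_trans ?_ (hf.2 (A.map (mulE g⁻¹).toEmbedding))
  exact Finset.single_le_sum (f := fun j => ∑ q ∈ A.map (mulE g⁻¹).toEmbedding, ‖f j (rep q)‖ ^ p)
    (fun _ _ => Finset.sum_nonneg fun _ _ => by positivity) (Finset.mem_univ j)

/-- the sum of the absolute values of the coefficients -/
def absM (D : Matrix (Fin a) (Fin b) (MonoidAlgebra ℤ G)) : ℝ :=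
  ∑ j, ∑ k, ∑ g ∈ (D j k).coeff.support, |((D j k).coeff g : ℝ)|

lemma absM_nonneg (D : Matrix (Fin a) (Fin b) (MonoidAlgebra ℤ G)) : 0 ≤ absM D :=
  Finset.sum_nonneg fun _ _ => Finset.sum_nonneg fun _ _ => Finset.sum_nonneg fun _ _ => abs_nonneg _

/-- the majorant of `bd D f` -/
def maj (D : Matrix (Fin a) (Fin b) (MonoidAlgebra ℤ G)) (f : Fin a → G → E) : Fin b → G → ℝ :=
  fun k x => ∑ j, ∑ g ∈ (D j k).coeff.support, |((D j k).coeff g : ℝ)| * ‖f j (x * g⁻¹)‖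

lemma Le.maj {p : ℝ} (hp : 1 ≤ p) {f : Fin a → G → E} {M : ℝ} (hf : Le p C f M)
    (hinv : ∀ j, Inva C fun x => ‖f j x‖) (D : Matrix (Fin a) (Fin b) (MonoidAlgebra ℤ G)) :
    Le p C (maj D f) (absM D * M) := by
  classical
  have h1 : ZP.maj D f = ∑ j, ∑ k, ∑ g ∈ (D j k).coeff.support,
      fun (k' : Fin b) (x : G) => |((D j k).coeff g : ℝ)| *
        (if k' = k then ‖f j (x * g⁻¹)‖ else (0 : ℝ)) := by
    funext k' x
    simp only [ZP.maj, Finset.sum_apply]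
    refine Finset.sum_congr rfl fun j _ => ?_
    rw [Finset.sum_eq_single k']
    · simp
    · intro k _ hk
      refine Finset.sum_eq_zero fun g _ => ?_
      rw [if_neg (Ne.symm hk), mul_zero]
    · intro h
      exact absurd (Finset.mem_univ _) h
  rw [h1, absM, Finset.sum_mul]
  refine Le.sum hp _ fun j _ => ?_
  rw [Finset.sum_mul]
  refine Le.sum hp _ fun k _ => ?_
  rw [Finset.sum_mul]
  refine Le.sum hp _ fun g _ => ?_
  refine Le.smul' hp (hf.move hp hinv j k g) (abs_nonneg _) fun k' x => ?_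
  rw [norm_mul, Real.norm_eq_abs, abs_abs]

end norm

section lf

variable {V : Type} [NormedAddCommGroup V] [InnerProductSpace ℂ V] {π : URep C V}

lemma inva_norm {f : Fin a → G → V} (hf : IsLf π f) (j : Fin a) : Inva C fun x => ‖f j x‖ := by
  intro c x
  change ‖f j (c * x)‖ = ‖f j x‖
  rw [hf, app_norm]

/-- multipliers times translations -/
lemma Le.bdθ {p : ℝ} (hp : 1 ≤ p) {f : Fin a → G → V} {M e : ℝ} (hf : Le p C f M)
    (hl : IsLf π f) (D : Matrix (Fin a) (Fin b) (MonoidAlgebra ℤ G)) (he : 0 ≤ e)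
    (θ : G → G → ℂ) (hθ : ∀ g ∈ SD D, ∀ x, ‖θ g x‖ ≤ e) :
    Le p C (fun k x => ∑ j, ∑ g ∈ (D j k).coeff.support,
      (D j k).coeff g • (θ g x • f j (x * g⁻¹))) (e * (absM D * M)) := by
  refine Le.smul' hp (hf.maj hp (inva_norm hl) D) he fun k x => ?_
  have h0 : ‖ZP.maj D f k x‖ = ZP.maj D f k x := Real.norm_of_nonneg
    (Finset.sum_nonneg fun _ _ => Finset.sum_nonneg fun _ _ => by positivity)
  rw [h0, ZP.maj, Finset.mul_sum]
  refine (norm_sum_le _ _).trans (Finset.sum_le_sum fun j _ => ?_)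
  rw [Finset.mul_sum]
  refine (norm_sum_le _ _).trans (Finset.sum_le_sum fun g hg => ?_)
  rw [← Int.cast_smul_eq_zsmul ℂ, norm_smul, norm_smul, Complex.norm_intCast]
  have h1 := hθ g (mem_SD hg) x
  calc |((D j k).coeff g : ℝ)| * (‖θ g x‖ * ‖f j (x * g⁻¹)‖)
      ≤ |((D j k).coeff g : ℝ)| * (e * ‖f j (x * g⁻¹)‖) := by gcongr
    _ = e * (|((D j k).coeff g : ℝ)| * ‖f j (x * g⁻¹)‖) := by ring

lemma Le.bd {p : ℝ} (hp : 1 ≤ p) {f : Fin a → G → V} {M : ℝ} (hf : Le p C f M)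
    (hl : IsLf π f) (D : Matrix (Fin a) (Fin b) (MonoidAlgebra ℤ G)) :
    Le p C (bd D f) (absM D * M) := by
  have h := hf.bdθ hp hl D zero_le_one (fun _ _ => 1) (fun _ _ _ => by simp)
  simp only [one_smul, one_mul] at h
  exact h

end lf

end

end Pool.Agent.U670.ZP
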