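import Pool.Agent.U670.ZP.Interp

set_option autoImplicit false
set_option linter.unusedSectionVars false

open scoped Matrix ENNReal Pointwise

namespace Pool.Agent.U670.ZP

open Pool.Agent.U670.ZS
open Pool.Agent.TH98.ZT (URep bd bd_add bd_zero)

noncomputable section

variable {G : Type} [Group G] {C : Subgroup G} {a b c : ℕ}
  {V : Type} [NormedAddCommGroup V] [InnerProductSpace ℂ V] {π : URep C V}

lemma Bnd.mono {L : Matrix (Fin a) (Fin a) (MonoidAlgebra ℤ G)} {κ p h h' : ℝ} (hp : 1 ≤ p)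
    (H : Bnd π L κ p h) (h0 : 0 ≤ h) (hh : h ≤ h') : Bnd π L κ p h' := by
  intro A f hf B
  refine (H A f hf B).trans ?_
  exact mul_le_mul_of_nonneg_right (Real.rpow_le_rpow h0 hh (by linarith)) (pm_nonneg _ _ _)

/-- the bounds for `p` near `2` -/
theorem exists_near (ρ h : ℝ) (hρ0 : 0 < ρ) (hρ1 : ρ < 1) (hh : 0 < h) :
    ∃ ε : ℝ, 0 < ε ∧ ε < 1 / 2 ∧ ∀ p : ℝ, |p - 2| < ε → ∀ {G : Type} [Group G] {C : Subgroup G}
      {a : ℕ} {V : Type} [NormedAddCommGroup V] [InnerProductSpace ℂ V] {π : URep C V}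
      (L : Matrix (Fin a) (Fin a) (MonoidAlgebra ℤ G)) (κ : ℝ), Bnd π L κ 2 ρ →
      (∀ r : ℝ, 1 ≤ r → Bnd π L κ r h) → Bnd π L κ p ((1 + ρ) / 2) := by
  have c1 : ContinuousAt (fun p : ℝ => h ^ (1 - (4 / p - 1)) * ρ ^ (4 / p - 1)) 2 := by
    refine ContinuousAt.mul ?_ ?_
    · refine ContinuousAt.rpow continuousAt_const ?_ (Or.inl hh.ne')
      refine continuousAt_const.sub (ContinuousAt.sub ?_ continuousAt_const)
      exact continuousAt_const.div continuousAt_id (by norm_num)
    · refine ContinuousAt.rpow continuousAt_const ?_ (Or.inl hρ0.ne')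
      refine ContinuousAt.sub ?_ continuousAt_const
      exact continuousAt_const.div continuousAt_id (by norm_num)
  have c2 : ContinuousAt (fun p : ℝ => ρ ^ (1 - (4 / p - 2)) * h ^ (4 / p - 2)) 2 := by
    refine ContinuousAt.mul ?_ ?_
    · refine ContinuousAt.rpow continuousAt_const ?_ (Or.inl hρ0.ne')
      refine continuousAt_const.sub (ContinuousAt.sub ?_ continuousAt_const)
      exact continuousAt_const.div continuousAt_id (by norm_num)
    · refine ContinuousAt.rpow continuousAt_const ?_ (Or.inl hh.ne')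
      refine ContinuousAt.sub ?_ continuousAt_const
      exact continuousAt_const.div continuousAt_id (by norm_num)
  have v1 : (fun p : ℝ => h ^ (1 - (4 / p - 1)) * ρ ^ (4 / p - 1)) 2 < (1 + ρ) / 2 := by
    norm_num
    linarith
  have v2 : (fun p : ℝ => ρ ^ (1 - (4 / p - 2)) * h ^ (4 / p - 2)) 2 < (1 + ρ) / 2 := by
    norm_num
    linarith
  have n1 := c1.eventually (gt_mem_nhds v1)
  have n2 := c2.eventually (gt_mem_nhds v2)
  obtain ⟨ε, hε, hb⟩ := Metric.eventually_nhds_iff.1 (n1.and n2)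
  refine ⟨min ε (1 / 4), by positivity, (min_le_right _ _).trans_lt (by norm_num), ?_⟩
  intro p hp G _ C a V _ _ π L κ H2 Hr
  have hp1 : |p - 2| < ε := hp.trans_le (min_le_left _ _)
  have hp2 : |p - 2| < 1 / 4 := hp.trans_le (min_le_right _ _)
  obtain ⟨hb1, hb2⟩ := hb (y := p) (by rwa [Real.dist_eq])
  have hp3 := abs_lt.1 hp2
  rcases lt_trichotomy p 2 with h2 | h2 | h2
  · have key := bnd_interp (π := π) (L := L) (κ := κ) (p₀ := 4 / 3) (p₁ := 2) (p := p) (h₀ := h)
      (h₁ := ρ) (s := 4 / p - 2) (by norm_num) (by linarith) h2 hh.le hρ0.le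
      (by
        have : p ≠ 0 := by linarith
        field_simp
        ring) (Hr _ (by norm_num)) H2
    refine key.mono (by linarith) (by positivity) hb2.le
  · rw [h2]
    exact H2.mono (by norm_num) hρ0.le (by linarith)
  · have key := bnd_interp (π := π) (L := L) (κ := κ) (p₀ := 2) (p₁ := 4) (p := p) (h₀ := ρ)
      (h₁ := h) (s := 4 / p - 1) (by norm_num) h2 (by linarith) hρ0.le hh.le
      (by
        have : p ≠ 0 := by linarith
        field_simp
        ring) H2 (Hr _ (by norm_num))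
    refine key.mono (by linarith) (by positivity) hb1.le

/-- from finite chains to all chains -/
theorem Le.of_bnd {L : Matrix (Fin a) (Fin a) (MonoidAlgebra ℤ G)} {κ p h : ℝ} (hp : 1 ≤ p)
    (hh : 0 ≤ h) (H : Bnd π L κ p h) {f : Fin a → G → V} {M : ℝ} (hl : IsLf π f)
    (hf : Le p C f M) : Le p C (ZP.sop L κ f) (h * M) := by
  classical
  refine ⟨mul_nonneg hh hf.1, fun B => ?_⟩
  set A : Finset (Cos C) := B ∪ Finset.image₂ mulR B ((SD L)⁻¹) with hA
  have h1 : pm p (ZP.sop L κ f) B = pm p (ZP.sop L κ (cut A f)) B := by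
    refine Finset.sum_congr rfl fun j _ => Finset.sum_congr rfl fun q hq => ?_
    congr 2
    change f j (rep q) - _ = cut A f j (rep q) - _
    have e1 : cut A f j (rep q) = f j (rep q) := by
      rw [cut, cmk_rep, if_pos]
      rw [hA]
      exact Finset.mem_union_left _ hq
    have e2 : TH98.ZT.bd L (cut A f) j (rep q) = TH98.ZT.bd L f j (rep q) := by
      refine bd_congr (fun j' g hg => ?_) j
      rw [cut, if_pos]
      rw [hA]
      refine Finset.mem_union_right _ (Finset.mem_image₂.2 ⟨q, hq, g⁻¹, Finset.inv_mem_inv hg, ?_⟩)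
      rfl
    rw [e1]
    change f j (rep q) - ((κ : ℝ) : ℂ) • TH98.ZT.bd L f j (rep q) =
      f j (rep q) - ((κ : ℝ) : ℂ) • TH98.ZT.bd L (cut A f) j (rep q)
    rw [e2]
  rw [h1]
  refine (H A _ (isFin_cut A hl) B).trans ?_
  rw [Real.mul_rpow hh hf.1]
  refine mul_le_mul_of_nonneg_left ?_ (by positivity)
  refine le_trans (le_of_eq ?_) (hf.2 A)
  refine Finset.sum_congr rfl fun j _ => Finset.sum_congr rfl fun q hq => ?_
  rw [cut, cmk_rep, if_pos hq]

end

end Pool.Agent.U670.ZP
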